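import Pool.Agent.R975.BG.Fin2

/-!
# MP_e2dabb_pr: the 2-neighbour graphs percolate in every dimension

Independently for every `x ∈ ℤ^d` a uniformly random set of exactly two of the `2 d` unit vectors is
chosen (`law`, `uvec`), and `x` picks the two corresponding neighbours (`Pick`).  `percD` is the
event that there is an infinite self-avoiding path from the origin which follows the picks, `percU`
the event that there is one when the picks may be used in both directions; `thetaD` and `thetaU`
are their probabilities `θ^D(2, d)` and `θ^U(2, d)`.  The theorem answers Q1 positively: both are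
positive in every dimension `d ≥ 1`.
-/

set_option autoImplicit false

namespace Pool.Agent.Results.MP_e2dabb_pr.TwoNeighbourGraphsPercolate

open Pool.Agent.R975.BG2

theorem result : ∀ (d : ℕ) [NeZero d],
    MeasurableSet (percD d) ∧ MeasurableSet (percU d) ∧ 0 < thetaD d ∧ 0 < thetaU d :=
  fun d _ => ⟨Pool.Agent.R975.BG.percD_meas d, Pool.Agent.R975.BG.percU_meas d,
    (Pool.Agent.R975.BG.theta_all d).1, (Pool.Agent.R975.BG.theta_all d).2⟩

end Pool.Agent.Results.MP_e2dabb_pr.TwoNeighbourGraphsPercolate
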